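import Pool.Agent.V1139.SL2.Leonard

set_option autoImplicit false

open Matrix Module

namespace Pool.Agent.Results.MP_f4f39d_al.CommutatorNotInSpan

open Pool.Agent.V1139.Leonard Pool.Agent.V1139.SL2

/-- The matrix `A` (action of `e + f`): `A i (i+1) = d - i`, `A (i+1) i = i + 1`. -/
def kA (K : Type) [Field K] (d : ℕ) : Matrix (Fin (d + 1)) (Fin (d + 1)) K :=
  fun i j => if i.val + 1 = j.val then (d : K) - i.val
    else if j.val + 1 = i.val then (j.val : K) + 1 else 0

/-- The matrix `A* = diag(d, d - 2, ..., -d)`. -/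
def kAs (K : Type) [Field K] (d : ℕ) : Matrix (Fin (d + 1)) (Fin (d + 1)) K :=
  Matrix.diagonal (fun i => (d : K) - 2 * i.val)

/-- The matrices `X, Y, Z` act on `K ^ (d + 1)` as a Leonard triple. -/
def IsLeonardTripleMat {K : Type} [Field K] {n : ℕ} (X Y Z : Matrix (Fin n) (Fin n) K) : Prop :=
  IsLeonardTriple X.mulVecLin Y.mulVecLin Z.mulVecLin

/-- The span of `I, X, Y, Z`. -/
def Span4 {K : Type} [Field K] {n : ℕ} (X Y Z : Matrix (Fin n) (Fin n) K) :
    Submodule K (Matrix (Fin n) (Fin n) K) := Submodule.span K {1, X, Y, Z}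

/-- `A^ε = a A + b A* + c I`. -/
def kE {K : Type} [Field K] (d : ℕ) (a b c : K) : Matrix (Fin (d + 1)) (Fin (d + 1)) K :=
  a • kA K d + b • kAs K d + c • 1

def mh (K : Type) [Field K] : Matrix (Fin 2) (Fin 2) K := !![1, 0; 0, -1]
def my (K : Type) [Field K] : Matrix (Fin 2) (Fin 2) K := !![0, 1; 1, 0]
def mz {K : Type} [Field K] (a b e : K) : Matrix (Fin 2) (Fin 2) K := !![b + e, a; a, -b + e]

variable {K : Type} [Field K]

theorem rep_h (d : ℕ) : SymRep d (mh K) = kAs K d := by
  ext i j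
  unfold SymRep mh kAs
  by_cases h : i = j
  · subst h
    simp
    ring
  · rw [Matrix.diagonal_apply_ne _ h]
    have : ¬ i.val = j.val := fun h' => h (Fin.ext h')
    simp [this]

theorem rep_y (d : ℕ) : SymRep d (my K) = kA K d := by
  ext i j
  unfold SymRep my kA
  by_cases h : i.val = j.val
  · have h1 : ¬ i.val + 1 = j.val := by omega
    have h2 : ¬ j.val + 1 = i.val := by omega
    rw [if_pos h, if_neg h1, if_neg h2]
    simp
  · rw [if_neg h]
    by_cases h1 : i.val = j.val + 1
    · have h2 : ¬ i.val + 1 = j.val := by omega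
      rw [if_pos h1, if_neg h2, if_pos h1.symm, h1]
      simp
    · rw [if_neg h1]
      by_cases h2 : j.val = i.val + 1
      · rw [if_pos h2, if_pos h2.symm]
        simp
      · rw [if_neg h2, if_neg (fun h => h2 h.symm), if_neg (fun h => h1 h.symm)]

theorem rep_z (d : ℕ) (a b e : K) : SymRep d (mz a b e) = kE d a b ((d : K) * e) := by
  unfold kE
  rw [← rep_h, ← rep_y]
  ext i j
  simp only [Matrix.add_apply, Matrix.smul_apply, smul_eq_mul]
  unfold SymRep mh my mz
  by_cases h : i.val = j.val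
  · have h' : i = j := Fin.ext h
    subst h'
    simp
    ring
  · have h' : i ≠ j := fun h' => h (by rw [h'])
    rw [if_neg h, if_neg h, if_neg h, Matrix.one_apply_ne h']
    by_cases h1 : i.val = j.val + 1
    · rw [if_pos h1, if_pos h1, if_pos h1]
      simp
      ring
    · rw [if_neg h1, if_neg h1, if_neg h1]
      by_cases h2 : j.val = i.val + 1
      · rw [if_pos h2, if_pos h2, if_pos h2]
        simp
        ring
      · rw [if_neg h2, if_neg h2, if_neg h2]
        simp

theorem triple [CharZero K] (d : ℕ) (a b e s : K) (ha : a ≠ 0) (hb : b ≠ 0)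
    (hs0 : s ≠ 0) (hs : s ^ 2 = a ^ 2 + b ^ 2) :
    IsLeonardTriple (Matrix.toLin' (SymRep d (my K))) (Matrix.toLin' (SymRep d (mh K)))
      (Matrix.toLin' (SymRep d (mz a b e))) := by
  have hfac : (s - b) * (s + b) = a ^ 2 := by linear_combination hs
  have ha2 : a ^ 2 ≠ 0 := pow_ne_zero 2 ha
  have s1 : s - b ≠ 0 := by
    intro h; apply ha2; rw [← hfac, h, zero_mul]
  have s2 : s + b ≠ 0 := by
    intro h; apply ha2; rw [← hfac, h, mul_zero]
  refine ⟨?_, ?_, ?_⟩
  · apply adapted d ![1, 1] ![1, -1] (by simp; norm_num)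
    · simp [cr, my, Matrix.mulVec, dotProduct, Fin.sum_univ_two]
    · simp [cr, my, Matrix.mulVec, dotProduct, Fin.sum_univ_two]
    · simp [cr, mh, Matrix.mulVec, dotProduct, Fin.sum_univ_two]; norm_num
    · simp [cr, mh, Matrix.mulVec, dotProduct, Fin.sum_univ_two]
    · have : cr ![(1 : K), 1] (mz a b e *ᵥ ![1, 1]) = -2 * b := by
        simp [cr, mz, Matrix.mulVec, dotProduct, Fin.sum_univ_two]
        ring
      rw [this]
      exact mul_ne_zero (by norm_num) hb
    · have : cr ![(1 : K), -1] (mz a b e *ᵥ ![1, -1]) = 2 * b := by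
        simp [cr, mz, Matrix.mulVec, dotProduct, Fin.sum_univ_two]
        ring
      rw [this]
      exact mul_ne_zero (by norm_num) hb
  · apply adapted d ![1, 0] ![0, 1] (by simp)
    · simp [cr, mh, Matrix.mulVec, dotProduct, Fin.sum_univ_two]
    · simp [cr, mh, Matrix.mulVec, dotProduct, Fin.sum_univ_two]
    · simp [cr, my, Matrix.mulVec, dotProduct, Fin.sum_univ_two]
    · simp [cr, my, Matrix.mulVec, dotProduct, Fin.sum_univ_two]
    · simp [cr, mz, Matrix.mulVec, dotProduct, Fin.sum_univ_two, ha]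
    · simp [cr, mz, Matrix.mulVec, dotProduct, Fin.sum_univ_two, ha]
  · apply adapted d ![a, s - b] ![a, -s - b]
    · have : (![a, s - b] : Fin 2 → K) 0 * (![a, -s - b] : Fin 2 → K) 1
          - (![a, s - b] : Fin 2 → K) 1 * (![a, -s - b] : Fin 2 → K) 0 = -2 * a * s := by
        simp; ring
      rw [this]
      exact mul_ne_zero (mul_ne_zero (by norm_num) ha) hs0
    · simp [cr, mz, Matrix.mulVec, dotProduct, Fin.sum_univ_two]
      linear_combination (-a) * hs
    · simp [cr, mz, Matrix.mulVec, dotProduct, Fin.sum_univ_two]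
      linear_combination (-a) * hs
    · have : cr ![a, s - b] (my K *ᵥ ![a, s - b]) = 2 * b * (s - b) := by
        simp [cr, my, Matrix.mulVec, dotProduct, Fin.sum_univ_two]
        linear_combination -hs
      rw [this]
      exact mul_ne_zero (mul_ne_zero (by norm_num) hb) s1
    · have : cr ![a, -s - b] (my K *ᵥ ![a, -s - b]) = -2 * b * (s + b) := by
        simp [cr, my, Matrix.mulVec, dotProduct, Fin.sum_univ_two]
        linear_combination -hs
      rw [this]
      exact mul_ne_zero (mul_ne_zero (by norm_num) hb) s2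
    · have : cr ![a, s - b] (mh K *ᵥ ![a, s - b]) = -2 * a * (s - b) := by
        simp [cr, mh, Matrix.mulVec, dotProduct, Fin.sum_univ_two]
        ring
      rw [this]
      exact mul_ne_zero (mul_ne_zero (by norm_num) ha) s1
    · have : cr ![a, -s - b] (mh K *ᵥ ![a, -s - b]) = 2 * a * (s + b) := by
        simp [cr, mh, Matrix.mulVec, dotProduct, Fin.sum_univ_two]
        ring
      rw [this]
      exact mul_ne_zero (mul_ne_zero (by norm_num) ha) s2

theorem notmem [CharZero K] (d : ℕ) (hd : 1 ≤ d) (a b c : K) :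
    kA K d * kAs K d - kAs K d * kA K d ∉ Span4 (kA K d) (kAs K d) (kE d a b c) := by
  intro h
  unfold Span4 at h
  rw [Submodule.mem_span_insert] at h
  obtain ⟨x, z, hz, e⟩ := h
  rw [Submodule.mem_span_insert] at hz
  obtain ⟨y, z', hz', e'⟩ := hz
  rw [Submodule.mem_span_pair] at hz'
  obtain ⟨u, v, e''⟩ := hz'
  subst e'' e'
  have h0 : (0 : ℕ) < d + 1 := by omega
  have h1 : (1 : ℕ) < d + 1 := by omega
  have hd0 : (d : K) ≠ 0 := by exact_mod_cast (by omega : d ≠ 0)
  have n01 : (⟨0, h0⟩ : Fin (d + 1)) ≠ ⟨1, h1⟩ := by simp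
  have n10 : (⟨1, h1⟩ : Fin (d + 1)) ≠ ⟨0, h0⟩ := by simp
  have k01 := congrFun (congrFun e ⟨0, h0⟩) ⟨1, h1⟩
  have k10 := congrFun (congrFun e ⟨1, h1⟩) ⟨0, h0⟩
  simp only [Matrix.sub_apply, Matrix.add_apply, Matrix.smul_apply, kAs, kE,
    Matrix.mul_diagonal, Matrix.diagonal_mul, Matrix.one_apply_ne n01, Matrix.one_apply_ne n10,
    Matrix.diagonal_apply_ne _ n01, Matrix.diagonal_apply_ne _ n10] at k01 k10
  simp [kA] at k01 k10
  have e1 : (d : K) * (-2 - (y + v * a)) = 0 := by linear_combination k01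
  have e2 : -2 - (y + v * a) = 0 := (mul_eq_zero.mp e1).resolve_left hd0
  have e3 : (4 : K) = 0 := by linear_combination k10 - e2
  norm_num at e3

/-- Over every algebraically closed field `K` of characteristic zero, for every `d ≥ 1` and all
scalars `a, b, c` with `a, b, a² + b² ≠ 0`, the matrices `A, A*, aA + bA* + cI` form a Leonard
triple, while `[A, A*]` is not in the span of `I, A, A*, aA + bA* + cI`. -/
theorem result (K : Type) [Field K] [IsAlgClosed K] [CharZero K] (d : ℕ) (hd : 1 ≤ d)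
    (a b c : K) (ha : a ≠ 0) (hb : b ≠ 0) (hab : a ^ 2 + b ^ 2 ≠ 0) :
    IsLeonardTripleMat (kA K d) (kAs K d) (kE d a b c) ∧
      kA K d * kAs K d - kAs K d * kA K d ∉ Span4 (kA K d) (kAs K d) (kE d a b c) := by
  refine ⟨?_, notmem d hd a b c⟩
  obtain ⟨s, hs⟩ := IsAlgClosed.exists_pow_nat_eq (a ^ 2 + b ^ 2) (n := 2) (by norm_num)
  have hs0 : s ≠ 0 := by
    rintro rfl
    apply hab
    rw [← hs]
    simp
  have hd0 : (d : K) ≠ 0 := by exact_mod_cast (by omega : d ≠ 0)
  have h := triple d a b (c / d) s ha hb hs0 hs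
  rw [rep_h, rep_y, rep_z, mul_div_cancel₀ _ hd0] at h
  exact h

end Pool.Agent.Results.MP_f4f39d_al.CommutatorNotInSpan
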